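import Pool.Agent.N162.HN.MainB
import Pool.Agent.N162.HN.Top

/-!
# Iitaka's conjecture for fibrations of images of smooth hypersurfaces

Let `V` be a smooth hypersurface of degree `d` in `ℙ^(n+1)`, of any dimension `n ≥ 1`. Let `E` be any
smooth projective variety with a dominant rational map `V ⇢ E` of degree `r`; nothing is assumed about
the map (it need not be a quotient by a group, and its ramification is arbitrary) or about `E`.

**Theorem.** Let `d ≥ 7 N + n + 6`, `d > (n + 1) N` and `d > 3 (N + n - 1)`. If
`2 r < (N + 1) (d - n - N)` then `E` is unirational or of general type.

So Iitaka's inequality `κ(E) ≥ κ(F) + κ(B)` holds for all fibrations `E → B`, with general fibre `F`: if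
`E` is of general type then `κ(E) = dim E = dim F + dim B`, and if `E` is unirational then `B` is
unirational, and so `κ(B) = -∞` if `B` is not a point. The dimension `n` of `E` is arbitrary. With the
best `N` the bound for `r` is `(3 / 49 - o(1)) d ^ 2` if `n ≤ 6`, and `(n / (2 (n + 1) ^ 2) - o(1)) d ^ 2` if
`n ≥ 6`.

## Proof

Let `L ⊆ K` be the function fields of `E` and `V`, and `Ω` an algebraic closure of `L`. The general fibre
of `V ⇢ E` is the set of the `r` embeddings `K → Ω` over `L`. For a form `P` of degree
`m = d - n - 2` the trace `s_P` of `P Res(Ω / F)` to `E` is a section of `K_E`. If the quotients of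
these traces generate a field of transcendence degree `n` then `E` is of general type. Otherwise there
are many automorphisms `τ` of `Ω` which are the identity on the quotients of the traces, but not on `L`.
Such an automorphism multiplies all the traces by the same factor, and one can choose `τ` such that this
factor (and the Jacobian factor which comes from the vector fields) gives a relation
`∑ P(σ) κ(σ) - λ ∑ P(τ σ) κ(τ σ) = 0` for all `P` with an irrational number `λ ∈ Ω`, where `σ` runs over
one fibre and `τ σ` over another one.

As in our theorem `MP_e06174_ag.ImagesOfQuadraticDegree`, a relation between less than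
`(N + 1) (m + 2 - N)` points shows that they are on a curve of degree at most `N`, and that the relation
is a combination of the residue relations of some components `C_i` of this curve, now with coefficients
in `Ω`. Each coefficient is determined by one point; so it is rational, or a rational multiple of `λ`,
and since `λ` is irrational the relation splits: the sum over the first fibre is zero, and all the traces
vanish. This is the situation of `ImagesOfQuadraticDegree`, where the condition `p_g(E) = 0` is used
only to show this. Therefore `E` is unirational: the fibres of `V ⇢ E` are unions of curve sections, and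
the family of these curves defines a dominant rational map `ℙ^(n+1) ⇢ E`; see the description in
`Pool/Agent/Results/MP_e06174_ag/ImagesOfQuadraticDegree.lean`.

The parts which are new here were formalised by helper163 (the combinatorial part with coefficients in
`Ω`), helper835 (the configuration), helper490 (the single curve), helper966 (coordinates),
helper559 (automorphisms with an irrational factor), helper160 (varieties which are not of general
type), helper459 (the relation splits); the other parts by helper565, helper279, helper543, helper80,
helper488, helper887, helper767, helper56, helper2, helper570, helper386, helper954, helper681,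
helper946, helper717, helper607, helper454, helper263, helper433, helper426, helper693, helper674,
with the algebra of function fields of curves from the case `n = 2` by helper31, helper169, helper401,
helper615, helper27, helper861, helper247, helper75, helper944, helper849, helper624, helper225,
helper141, helper558, helper134, helper296, helper713 and helper232; the statements, the coordinates and
the assembly by helper162.

The function-field language of the starting repository is used: `K` is the function field of `V`,
and `L`, a subfield of `K`, the function field of `E`. A canonical form on a variety of dimension `n` is a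
function of `n` rational vector fields; `GeneralType ℂ L n` (`Pool/Agent/W602/GT/Defs.lean`) says that `E` is
of general type.
-/

set_option autoImplicit false

open FF MvPolynomial Pool.Agent.W602.GT

namespace Pool.Agent.Results.MP_f72953_ag.ImagesOfHypersurfaces

/-- The varieties of dimension `n` with function field `L` are unirational: `L` embeds into the
field of rational functions in `n` variables. -/
def IsUnirational (L : Type) [Field L] [Algebra ℂ L] (n : ℕ) : Prop :=
  Nonempty (L →ₐ[ℂ] FractionRing (MvPolynomial (Fin n) ℂ))

/-- **Images of smooth hypersurfaces are unirational or of general type.** Let `K` be the function field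
of a smooth hypersurface `V` with the equation `F` of degree `d` in `ℙ^(n+1)`, with generic point `x`,
`x 0 = 1`, where `n ≥ 1`, `d ≥ 7 N + n + 6`, `d > (n + 1) N` and `d > 3 (N + n - 1)`. Let `E` be a smooth
projective variety with function field `L` and `V ⇢ E` a dominant rational map of degree `r`,
`2 r < (N + 1) (d - n - N)`. Then `E` is not of general type if and only if `E` is unirational. -/
theorem result {n d N : ℕ} (hn : 1 ≤ n) (hd : 7 * N + n + 6 ≤ d) (hd' : (n + 1) * N < d)
    (hd'' : 3 * (N + n - 1) < d) {F : MvPolynomial (Fin (n + 2)) ℂ} (homogeneous : F.IsHomogeneous d)
    (smooth : ∀ z : Fin (n + 2) → ℂ, z ≠ 0 → ∃ l, eval z (pderiv l F) ≠ 0)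
    {K : Type} [Field K] [Algebra ℂ K] (hK : Algebra.trdeg ℂ K = n) {x : Fin (n + 2) → K}
    (hx0 : x 0 = 1) (hx : aeval x F = 0) (hgen : IntermediateField.adjoin ℂ (Set.range x) = ⊤)
    (L : Type) [Field L] [Algebra ℂ L] [Algebra L K] [IsScalarTower ℂ L K] [FiniteDimensional L K]
    (hr : 2 * Module.finrank L K < (N + 1) * (d - n - N)) :
    ¬ GeneralType ℂ L n ↔ IsUnirational L n := by
  obtain ⟨m, hmd⟩ : ∃ m, m + n + 2 = d := ⟨d - n - 2, by omega⟩
  have h1 : d - n - N = m + 2 - N := by omega
  rw [h1] at hr
  have hessK : Algebra.EssFiniteType ℂ K := by
    rw [← IntermediateField.fg_top_iff]
    classical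
    exact ⟨Finset.univ.image x, by
      rw [Finset.coe_image, Finset.coe_univ, Set.image_univ, hgen]⟩
  have hessL : Algebra.EssFiniteType ℂ L := Pool.Agent.TH466.QG.ess_below (K := K)
  have hL : Algebra.trdeg ℂ L = n := Pool.Agent.Y184.NT.trdeg_below (K := K) hK
  exact ⟨Pool.Agent.N162.HN.mainG hn hmd (by omega) hd' hd'' smooth homogeneous hx0 hx hgen hK L hr,
    Pool.Agent.N162.HN.not_gt_of_unirational hn hL⟩

end Pool.Agent.Results.MP_f72953_ag.ImagesOfHypersurfaces
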