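import Pool.Agent.TH756.PR.Cov
import Pool.Agent.TH466.QG.Top
import Pool.Agent.N194.VS.All

/-!
# Iitaka's inequality for covers of products of projective spaces over arrangements

For `i < r` let `ℓ i k = 0`, `k < q i`, be hyperplanes in projective `n i`-space, an arbitrary
arrangement, let `N` be the sum of the numbers `n i`, and let `X` be a variety of dimension `N` with
a generically finite rational map to the product of the projective spaces, in particular an abelian
cover of the product which is branched over the hyperplanes. The theorem is about **all** fibrations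
`X ⇢ Y` if at all prime divisors over `X` which lie over the hyperplanes the multiplicities are large
enough (the bound does not depend on the number of hyperplanes, and the multiplicities of the different
factors may be added); nothing is assumed about `Y` and the fibres.

The function-field language of the library is used: prime divisors over `X` are the divisorial places
`P` of the function field `K` of `X` (`Divisorial`), `P.ord` is the order along `P`; `KappaGe k L n h`
says that `κ ≥ h` for the projective manifolds of dimension `n` over `k` with function field `L`,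
`IsPseudoEffective k L n` that their canonical bundle is pseudo-effective, `GeneralType k L n` that they
are of general type. `Subadditive`: the inequality for all fibrations
(`Pool/Agent/N194/VS/Key.lean`). `Cover`, `Cover.Free`, `Cover.FunctionField` and `Reducible` are in
`Pool/Agent/W602/Cov`. The definitions below are those of MP_fa3f7f_ag.MultiprojectiveDichotomy.
-/

set_option autoImplicit false
set_option linter.overlappingInstances false

open FF Module Pool.Agent.W602.Cov Pool.Agent.W602.GT Pool.Agent.N194.VS
open Pool.Agent.W619.PQ (IsUniruled)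

namespace Pool.Agent.Results.MP_f72953_ag.MultiprojectiveCovers

/-- In suitable linear coordinates `X 0, ..., X n` each of the hyperplanes is one of `X j = 0` or
`X 0 + ... + X n = 0`. The arrangements with this property which are not reducible are, up to
repetitions, the arrangements of `n + 2` hyperplanes in general position. -/
def Simplicial {n q : ℕ} (ℓ : Fin q → Form n) : Prop :=
  ∃ X : Basis (Fin (n + 1)) ℂ (Form n), ∀ i,
    (∃ c : ℂ, ℓ i = c • ∑ j, X j) ∨ ∃ (j : Fin (n + 1)) (c : ℂ), ℓ i = c • X j

/-- The bound for one arrangement in projective `n`-space: `n + 2`, and even `n + 1` if the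
arrangement does not consist of `n + 2` hyperplanes in general position. -/
def Bound {n q : ℕ} (ℓ : Fin q → Form n) (d : ℕ) : Prop :=
  d = n + 2 ∨ (d = n + 1 ∧ (Reducible ℓ ∨ ¬ Simplicial ℓ))

/-- The value of a linear form at a vector over `K`. -/
noncomputable def form {n : ℕ} {K : Type} [Field K] [Algebra ℂ K] (φ : Form n)
    (x : Fin (n + 1) → K) : K := ∑ j, algebraMap ℂ K (φ (Pi.single j 1)) * x j

variable {r N Q R : ℕ} {n q : Fin r → ℕ}

/-- The sum of the maximal multiplicities `v i k / d i` is greater than `1`. -/
def Large (d : Fin r → ℕ) (v : ∀ i, Fin (q i) → ℕ) : Prop :=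
  ∃ k : ∀ i, Fin (q i), (1 : ℚ) < ∑ i, (v i (k i) : ℚ) / d i

/-- The multiplicities over the arrangements of a variety of dimension `N` with function field `K`
and rational maps `[x i 0 : ... : x i (n i)]` to the projective spaces: at every prime divisor `P`
the hyperplane `ℓ i k` has the order `a i + v i k`, where `a i` is the minimum of the orders of all
linear forms on the `i`-th factor, and if some `v i k` is not `0` then `v` is large. -/
def MultiplicitiesOver (N : ℕ) (ℓ : ∀ i, Fin (q i) → Form (n i)) {K : Type} [Field K]
    [Algebra ℂ K] (x : ∀ i, Fin (n i + 1) → K) (d : Fin r → ℕ) : Prop :=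
  ∀ P : Place ℂ K, Divisorial N P → ∀ (a : Fin r → ℤ) (v : ∀ i, Fin (q i) → ℕ),
    (∀ i (φ : Form (n i)), form φ (x i) = 0 ∨ a i ≤ P.ord (form φ (x i))) →
    (∀ i, ∃ φ : Form (n i), form φ (x i) ≠ 0 ∧ P.ord (form φ (x i)) = a i) →
    (∀ i k, P.ord (form (ℓ i k) (x i)) = a i + v i k) → (∃ i, v i ≠ 0) → Large d v

/-- A linear form on the `i`-th factor as a linear form on projective `N`-space, which has the same
affine coordinates as the product of the projective `n i`-spaces; the number of the `j`-th affine
coordinate of the `i`-th factor is `e ⟨i, j⟩`. -/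
noncomputable def onFactor (e : ((i : Fin r) × Fin (n i)) ≃ Fin N) (i : Fin r)
    (φ : Form (n i)) : Form N :=
  φ ∘ₗ LinearMap.funLeft ℂ ℂ (Fin.cases 0 fun j => (e ⟨i, j⟩).succ)

/-- `X` is an abelian cover `y j ^ m j = ∏ i, ∏ k, ℓ i k (x i) ^ e' j i k` of the product of the
projective spaces: the hyperplane at infinity of the `i`-th factor is one of the `ℓ i k`, and the
degree of the equations in the coordinates `x i` of the `i`-th factor is divisible by `m j`. In
affine coordinates this is a cover of the affine part of projective `N`-space, and it is written in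
this way. -/
structure CoverOfProduct (X : Cover N Q R) (e : ((i : Fin r) × Fin (n i)) ≃ Fin N)
    (e' : ((i : Fin r) × Fin (q i)) ≃ Fin Q) (ℓ : ∀ i, Fin (q i) → Form (n i)) : Prop where
  forms : ∀ i k, X.ℓ (e' ⟨i, k⟩) = onFactor e i (ℓ i k)
  infinity : ∀ i, ∃ (k : Fin (q i)) (c : ℂ), ℓ i k = c • LinearMap.proj 0
  degrees : ∀ j i, X.m j ∣ ∑ k, X.e j (e' ⟨i, k⟩)

/-- The multiplicities of the cover `X`: whenever a germ of a curve in the product of the projective
spaces meets the hyperplanes `ℓ i k = 0` with multiplicities `v i k`, not all `0`, and these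
multiplicities are compatible with the equations of `X`, then `v` is large. -/
def Multiplicities (X : Cover N Q R) (e' : ((i : Fin r) × Fin (q i)) ≃ Fin Q)
    (ℓ : ∀ i, Fin (q i) → Form (n i)) (d : Fin r → ℕ) : Prop :=
  ∀ v : ∀ i, Fin (q i) → ℕ, (∃ i, v i ≠ 0) →
    (∀ i, ∃ x : Fin (n i + 1) → ℂ, x ≠ 0 ∧ ∀ k, v i k ≠ 0 → ℓ i k x = 0) →
    (∀ j, X.m j ∣ ∑ i, ∑ k, X.e j (e' ⟨i, k⟩) * v i k) → Large d v

/-- Let `d i` be the bounds for arbitrary arrangements in `r` projective spaces of dimensions `n i`,
and let `N` be the sum of the `n i`. Let `X` be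
**(1)** any irreducible abelian cover of the product of the projective spaces over the arrangements
with large multiplicities, or
**(2)** any variety with a generically finite rational map to the product of the projective spaces,
over arrangements which are not reducible, with large multiplicities.
Let `X ⇢ Y` be any dominant rational map with `κ(Y) ≥ 0` and generic fibre `F`. Then
`κ(X) ≥ κ(F) + dim Y ≥ κ(F) + κ(Y)`, and `X` and `F` are of general type if `K_F` is
pseudo-effective. -/
theorem result (r N : ℕ) (n q : Fin r → ℕ) (hr : 1 ≤ r) (hn : ∀ i, 1 ≤ n i)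
    (hN : N = ∑ i, n i) (ℓ : ∀ i, Fin (q i) → Form (n i)) (d : Fin r → ℕ)
    (hd : ∀ i, Bound (ℓ i) (d i)) :
    (∀ (Q R : ℕ) (X : Cover N Q R) (e : ((i : Fin r) × Fin (n i)) ≃ Fin N)
      (e' : ((i : Fin r) × Fin (q i)) ≃ Fin Q), CoverOfProduct X e e' ℓ → X.Free →
      Multiplicities X e' ℓ d → ∀ (K : Type) [Field K] [Algebra ℂ K] (z : Fin (N + 1) → K)
      (y : Fin R → K), X.FunctionField K z y → Subadditive K N) ∧
    ((∀ i k, ℓ i k ≠ 0) → (∀ i, ¬ Reducible (ℓ i)) →
      ∀ (K : Type) [Field K] [Algebra ℂ K] [Algebra.EssFiniteType ℂ K]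
      (x : ∀ i, Fin (n i + 1) → K), (∀ i, x i 0 ≠ 0) →
      IsTranscendenceBasis ℂ (fun a : (i : Fin r) × Fin (n i) => x a.1 a.2.succ / x a.1 0) →
      MultiplicitiesOver N ℓ x d → Subadditive K N) := by
  subst hN
  refine ⟨fun Q R X e e' hX hF h K _ _ z y hK => ?_,
    fun hℓ hirr K _ _ _ x hx0 hbas h => ?_⟩
  · have h1 := Pool.Agent.TH756.PR.tfaeP1 e e' hr hn X hF hK hX.forms hX.infinity hX.degrees d hd h
    have hess : Algebra.EssFiniteType ℂ K := by
      have hmem : ∀ G, Cover.evK z y G ∈ IntermediateField.adjoin ℂ (Set.range z ∪ Set.range y) := by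
        intro G
        unfold Cover.evK
        induction G using MvPolynomial.induction_on with
        | C c =>
          rw [MvPolynomial.aeval_C]
          exact IntermediateField.algebraMap_mem _ c
        | add p q hp hq =>
          rw [map_add]
          exact add_mem hp hq
        | mul_X p i hp =>
          rw [map_mul, MvPolynomial.aeval_X]
          refine mul_mem hp (IntermediateField.subset_adjoin _ _ ?_)
          rcases i with i | i
          · exact Or.inl ⟨i, rfl⟩
          · exact Or.inr ⟨i, rfl⟩
      have htop : IntermediateField.adjoin ℂ (Set.range z ∪ Set.range y) = ⊤ := by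
        rw [eq_top_iff]
        intro g _
        obtain ⟨G, H', D, -, -, -, rfl⟩ := hK.gen g
        exact div_mem (hmem G) (hmem H')
      rw [← IntermediateField.fg_top_iff, ← htop]
      exact IntermediateField.fg_adjoin_of_finite ((Set.finite_range _).union (Set.finite_range _))
    obtain ⟨-, -, h3⟩ := Pool.Agent.TH152.AC.coords X hK
    have htr := trdeg_of_basis h3
    have e3 : GeneralType ℂ K (∑ i, n i) ↔ ¬ Ruled ℂ K := h1.out 1 2
    have hd' : GeneralType ℂ K (∑ i, n i) ∨ IsUniruled ℂ K (∑ i, n i) := by
      by_cases hR : Ruled ℂ K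
      · exact Or.inr (Pool.Agent.TH466.QG.neg_below (K := K) (L := K) htr hR).1
      · exact Or.inl (e3.2 hR)
    exact viehweg_all htr hd'
  · have h1 : GeneralType ℂ K (∑ i, n i) :=
      general_of_log (Pool.Agent.TH756.PR.over_generalP finSigmaFinEquiv hn hℓ hirr d hd hx0
        hbas _ fun P hP _ a v hv hv0 => h P hP a v hv.1 hv.2.1 hv.2.2 hv0)
    exact viehweg_all h1.1 (Or.inl h1)

end Pool.Agent.Results.MP_f72953_ag.MultiprojectiveCovers
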