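import Pool.Agent.N133.TB.Rel3

/-!
MP_f72953_ag, Q1: the inequality of Iitaka for fibrations whose general fibres carry (generically)
stable tensor differentials, in every dimension, also for log canonical pairs and orbifold bases.

`K` and `L` are the function fields of the total space `X`, of dimension `d + r`, and of the base `B`,
of dimension `d`, of a dominant rational map `X ⇢ B` of relative dimension `r ≥ 1`.
`NormalModel y` (`Pool/Agent/Y172/Defs.lean`): `y` is the generic point, in homogeneous coordinates,
of `X`, a normal projective variety. `Effective y Δ`: `Δ ≥ 0` is a `ℚ`-divisor on `X`.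
`LogCanonical y n Δ`: the pair `(X, Δ)` is log canonical. `kodairaDim y n Δ`: the Kodaira dimension
of `K_X + Δ`. (`X` smooth and `Δ = 0` is the case of the question.)

`b Q` are multiplicities of the prime divisors `Q` over `B` (`b = 0` is the case of the question).
`PairKod ℂ L d b h` (`Pool/Agent/Y174/BDefs.lean`): the Kodaira dimension of `(B, b)` is at least
`h`: there are `h + 1` pluricanonical forms of some weight `s ≥ 1` on `B`, with poles of order at
most `s b Q` along the prime divisors `Q` over `B`, with algebraically independent ratios.
`OrbMor L y Δ b` (`Pool/Agent/N133/TB/Rel.lean`): if the prime divisor `P` of `X` lies over `Q` with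
multiplicity `e`, then `1 - Δ P ≤ e (1 - b Q)` (no condition if `b = 0`).

`IsRelTensor y Δ T` (`Pool/Agent/N133/TB/Rel.lean`): `T` is a relative tensor differential, a
`K`-multilinear form on the vertical rational vector fields (the derivations of `K` over `L`) such
that, for every prime divisor `P` of `X`, if the vector fields `D j` are regular along `P` and, for
`j` not in `S`, tangent to `P`, then `T D` has order at least `- |S| Δ P` along `P` (for instance
the restriction of a holomorphic tensor on `X`). `coefR T E`: the coefficients of the tensors in the
frame `E` of vertical vector fields, in an algebraic closure of `K`. `act A t`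
(`Pool/Agent/N133/TB/Stm.lean`): the coefficients for the basis `f j = ∑ l, A j l • e l`, if `t` are
the coefficients for the basis `e`. `SemistableFam t`, `StableFam t`: (semi)stability in the sense of
Hilbert and Mumford: there is no basis with integral weights `w`, `∑ w = 0`, such that all
coefficients of weight at most `0` vanish; respectively, `t ≠ 0`, and if all coefficients of negative
weight vanish for a basis with integral weights `w`, `∑ w = 0`, then `w = 0`.
-/

set_option autoImplicit false

namespace Pool.Agent.Results.MP_f72953_ag.RelativeTensors

open FF Pool.Agent.Y172 Pool.Agent.Y174 Pool.Agent.N133.TB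

/-- Let `X ⇢ B` be a fibration of relative dimension `r ≥ 1`, `(X, Δ)` a log canonical pair, `b` the
multiplicities of an orbifold structure on `B` such that the fibration is a morphism of orbifolds
(for instance `X` smooth, `Δ = 0`, `b = 0`), with `κ (B, b) ≥ h ≥ 0`. Let `T i` be finitely many
relative tensor differentials of `(X, Δ)`, of degrees `m i ≥ 1`, which are together semistable at the
generic point of `X`. Then `κ (K_X + Δ) ≥ h`; moreover, if the `T i` are stable at the generic point,
then `κ (K_X + Δ) = h + e` for some `e` such that in a suitable basis over an algebraic closure of `K`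
all coefficients of the `T i` are algebraic over the field `L (u_1, …, u_e)` for some
`u_1, …, u_e ∈ K`. In other words `κ (K_X + Δ) ≥ κ (B, b) + Var (T)`, where `Var (T)` is the variation
of the tensors `T i` along the fibres, the least number of functions on which the isomorphism class
of the tensors at a general point depends (in an algebraic way) along the general fibre. -/
theorem result {L K : Type} [Field L] [Field K] [Algebra ℂ L] [Algebra ℂ K] [Algebra L K]
    [IsScalarTower ℂ L K] {N d r : ℕ} {y : Fin (N + 1) → K} (hy : NormalModel y) (hr : 1 ≤ r)
    (hL : Algebra.trdeg ℂ L = d) (hn : Algebra.trdeg ℂ K = (d + r : ℕ)) {Δ : Place ℂ K → ℚ}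
    (hΔ : Effective y Δ) (hLC : LogCanonical y (d + r) Δ) {b : Place ℂ L → ℝ}
    (hb : OrbMor L y Δ b) {h : ℕ} (hB : PairKod ℂ L d b h) {ι : Type} [Finite ι] {m : ι → ℕ}
    (hm : ∀ i, 1 ≤ m i) {T : (i : ι) → MultilinearMap K (fun _ : Fin (m i) => Derivation L K K) K}
    (hT : ∀ i, IsRelTensor y Δ (T i)) {E : Fin r → Derivation L K K}
    (hE : LinearIndependent K E) (hss : SemistableFam (coefR T E)) :
    ∃ (e : ℕ) (u : Fin e → K), kodairaDim y (d + r) Δ = ((h + e : ℕ) : WithBot ℕ) ∧
      (StableFam (coefR T E) → ∃ A : Matrix (Fin r) (Fin r) (AlgebraicClosure K), A.det ≠ 0 ∧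
        ∀ i J, IsAlgebraic (IntermediateField.adjoin L (Set.range u))
          (act A (coefR T E) i J)) :=
  rel_main hy hr hL hn hΔ hLC hb hB hm hT hE hss

end Pool.Agent.Results.MP_f72953_ag.RelativeTensors
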