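import Pool.Agent.R869.WProj
import Pool.Agent.TH466.QG.Top
import Pool.Agent.N194.VS.All

/-!
# Iitaka's inequality for the varieties given by sparse equations with far apart exponents

The theorem is about **all** fibrations `X ⇢ Y` of **all** varieties `X` which are birational to an
irreducible component of a projective variety given by finitely many forms with at most `s` monomials
and arbitrary coefficients, whose exponents are far apart in the sense of lattice widths; no
divisibility of the exponents is assumed, and nothing is assumed about `Y`, the fibres, or the
singularities.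

`Wide ∅ F N` (`Pool/Agent/R869/WDefs.lean`): whenever at most `n` pairs of exponent vectors of the
forms, in the variables of a set `I`, are such that the sum of the segments between them has positive
width in all directions, this sum has width at least `N` in all directions. `KappaGe k L n h` says that
`κ ≥ h` for the projective manifolds of dimension `n` over `k` with function field `L`,
`IsPseudoEffective k L n` that their canonical bundle is pseudo-effective, `GeneralType k L n` that they
are of general type. `Subadditive`: the inequality for all fibrations (`Pool/Agent/N194/VS/Key.lean`).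
-/

set_option autoImplicit false
set_option linter.overlappingInstances false

namespace Pool.Agent.Results.MP_f72953_ag.WideSystems

open MvPolynomial Pool.Agent.W602.GT Pool.Agent.H159R3.GGLLog Pool.Agent.R869.Wd
  Pool.Agent.N194.VS
open Pool.Agent.W619.PQ (IsUniruled)

/-- Let `X` be birational to an irreducible component, of dimension `w ≥ 1`, of the projective variety
in `P^n` given by finitely many forms with at most `s` monomials, and let the system of forms be
`N`-wide with `N > n s (s - 1) (s - 2) / 2`. Let `X ⇢ Y` be any dominant rational map with `κ(Y) ≥ 0`
and generic fibre `F`. Then `κ(X) ≥ κ(F) + dim Y ≥ κ(F) + κ(Y)`, and `X` and `F` are of general type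
if `K_F` is pseudo-effective. -/
theorem result {n : ℕ} {ι : Type} {F : ι → MvPolynomial (Fin (n + 1)) ℂ} {s N : ℕ}
    (hfin : Finite ι) (hs : 1 ≤ s) (hF : ∀ e, IsForm (F e)) (hc : ∀ e, (F e).support.card ≤ s)
    (hW : Wide ∅ F N) (hN : n * (s * ((s - 1) * (s - 2) / 2)) < N) {K : Type} [Field K]
    [Algebra ℂ K] {w : ℕ} {y : Fin (n + 1) → K} (hw : 1 ≤ w) (hy : SubVar F K w y)
    (hcomp : IsComponent F y) : Subadditive K w := by
  have hC : Sys ∅ F s N := ⟨hF, hs, hc, hW, by
    rw [tri_choose]
    refine lt_of_le_of_lt (le_of_eq ?_) hN
    ring⟩
  have h1 := general_or_ruled hC hw hy hcomp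
  have hess : Algebra.EssFiniteType ℂ K := Pool.Agent.TH466.QG.SubVar.ess hy
  have e3 : GeneralType ℂ K w ↔ ¬ Ruled ℂ K := h1.out 0 1
  have hd : GeneralType ℂ K w ∨ IsUniruled ℂ K w := by
    by_cases hR : Ruled ℂ K
    · exact Or.inr (Pool.Agent.TH466.QG.neg_below (K := K) (L := K) hy.dim hR).1
    · exact Or.inl (e3.2 hR)
  exact viehweg_all hy.dim hd

end Pool.Agent.Results.MP_f72953_ag.WideSystems
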